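import Pool.Agent.MP_4d6048_al.Relators

/-!
The fundamental groups of the one-vertex square complexes attached to a finite abelian group.
-/

namespace Pool.Agent.DeltaX

/-- The fundamental group of the square complex attached to `X`, by its presentation. -/
abbrev PiOne (X : Type*) [AddCommGroup X] : Type _ := PresentedGroup (relators X)

variable {X : Type*} [AddCommGroup X]

/-- The vertical generators. -/
def a (i : X) : PiOne X := PresentedGroup.of (Sum.inl i)

/-- The horizontal generators. -/
def b (j : X) : PiOne X := PresentedGroup.of (Sum.inr j)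

theorem rel (i j : X) : a i * b j = b (i + j) * a (i - j) := by
  have h : (PresentedGroup.mk (relators X)) (FreeGroup.of (Sum.inl i) * FreeGroup.of (Sum.inr j) *
    (FreeGroup.of (Sum.inl (i - j)))⁻¹ * (FreeGroup.of (Sum.inr (i + j)))⁻¹) = 1 :=
    PresentedGroup.one_of_mem ⟨i, j, rfl⟩
  simp only [map_mul, map_inv] at h
  have h' : a i * b j * (a (i - j))⁻¹ * (b (i + j))⁻¹ = 1 := h
  rw [mul_inv_eq_one, mul_inv_eq_iff_eq_mul] at h'
  exact h'

/-- The universal property. -/
def lift {H : Type*} [Group H] (α β : X → H)
    (h : ∀ i j, α i * β j = β (i + j) * α (i - j)) : PiOne X →* H :=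
  PresentedGroup.toGroup (f := Sum.elim α β) (by
    rintro r ⟨i, j, rfl⟩
    simp only [map_mul, map_inv, FreeGroup.lift_apply_of, Sum.elim_inl, Sum.elim_inr]
    rw [mul_inv_eq_one, mul_inv_eq_iff_eq_mul]
    exact h i j)

@[simp] theorem lift_a {H : Type*} [Group H] (α β : X → H)
    (h : ∀ i j, α i * β j = β (i + j) * α (i - j)) (i : X) : lift α β h (a i) = α i := by
  simp [lift, a]

@[simp] theorem lift_b {H : Type*} [Group H] (α β : X → H)
    (h : ∀ i j, α i * β j = β (i + j) * α (i - j)) (i : X) : lift α β h (b i) = β i := by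
  simp [lift, b]

theorem hom_ext {H : Type*} [Group H] {f g : PiOne X →* H} (ha : ∀ i, f (a i) = g (a i))
    (hb : ∀ j, f (b j) = g (b j)) : f = g := by
  apply PresentedGroup.ext
  rintro (i | j)
  · exact ha i
  · exact hb j

/-- Induction from a subgroup containing all generators. -/
theorem mem_of_gen (S : Subgroup (PiOne X)) (ha : ∀ i, a i ∈ S) (hb : ∀ j, b j ∈ S)
    (g : PiOne X) : g ∈ S := by
  have h : (⊤ : Subgroup (PiOne X)) ≤ S := by
    rw [← PresentedGroup.closure_range_of, Subgroup.closure_le]
    rintro _ ⟨i | j, rfl⟩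
    · exact ha i
    · exact hb j
  exact h (Subgroup.mem_top g)

/-- Functoriality. -/
def map {Y : Type*} [AddCommGroup Y] (φ : X →+ Y) : PiOne X →* PiOne Y :=
  lift (fun i => a (φ i)) (fun j => b (φ j)) (by
    intro i j
    simp only [map_add, map_sub]
    exact rel _ _)

@[simp] theorem map_a {Y : Type*} [AddCommGroup Y] (φ : X →+ Y) (i : X) :
    map φ (a i) = a (φ i) := by simp [map]

@[simp] theorem map_b {Y : Type*} [AddCommGroup Y] (φ : X →+ Y) (i : X) :
    map φ (b i) = b (φ i) := by simp [map]

/-- Residual finiteness passes to groups that embed. -/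
theorem residuallyFinite_of_injective {G H : Type*} [Group G] [Group H] (f : G →* H)
    (hf : Function.Injective f) [Group.ResiduallyFinite H] : Group.ResiduallyFinite G := by
  rw [Group.residuallyFinite_iff_exists_finiteIndexNormalSubgroup]
  intro g hg
  have hg' : f g ≠ 1 := by
    intro h
    exact hg (hf (by rw [h, map_one]))
  obtain ⟨K, hK⟩ := Group.exists_finiteIndexNormalSubgroup_notMem (f g) hg'
  exact ⟨K.comap f, fun h => hK h⟩

end Pool.Agent.DeltaX
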