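import Mathlib.GroupTheory.FreeGroup.Reduce
import Mathlib.Algebra.Group.Subgroup.Basic
import Mathlib.Tactic

/-!
Reversible transducers acting on a free group.
-/

namespace Pool.Agent.DeltaX

section Transducer

variable {Y : Type*} (out : Y → Y → Y) (nxt : Y → Equiv.Perm Y)

/-- One step of the transducer on pairs (state, output), reading the letter `i`. -/
def step (i : Y) : Equiv.Perm (Y × FreeGroup Y) where
  toFun p := (nxt i p.1, p.2 * FreeGroup.of (out i p.1))
  invFun p := ((nxt i).symm p.1, p.2 * (FreeGroup.of (out i ((nxt i).symm p.1)))⁻¹)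
  left_inv := by rintro ⟨k, v⟩; simp
  right_inv := by rintro ⟨k, v⟩; simp

/-- The (inverse of the) action of words on pairs (state, output). -/
def theta : FreeGroup Y →* Equiv.Perm (Y × FreeGroup Y) :=
  FreeGroup.lift (fun i => (step out nxt i)⁻¹)

/-- The transformation of the free group started at state `k`. -/
def tr (k : Y) (w : FreeGroup Y) : FreeGroup Y := ((theta out nxt w)⁻¹ (k, 1)).2

/-- Left translation of the output. -/
def lmul (g : FreeGroup Y) : Equiv.Perm (Y × FreeGroup Y) where
  toFun p := (p.1, g * p.2)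
  invFun p := (p.1, g⁻¹ * p.2)
  left_inv := by rintro ⟨k, v⟩; simp
  right_inv := by rintro ⟨k, v⟩; simp

theorem commute_theta (w g : FreeGroup Y) : Commute (theta out nxt w) (lmul g) := by
  induction w using FreeGroup.induction_on with
  | C1 => rw [map_one]; exact Commute.one_left _
  | of i =>
    have h : Commute (step out nxt i) (lmul g) := by
      apply Equiv.ext
      rintro ⟨k, v⟩
      simp [step, lmul, mul_assoc]
    simpa [theta] using h.inv_left
  | inv_of i h =>
    simpa using h.inv_left
  | mul x y hx hy =>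
    rw [map_mul]
    exact hx.mul_left hy

theorem theta_lmul (w g v : FreeGroup Y) (k : Y) :
    (theta out nxt w)⁻¹ (k, g * v) =
      (((theta out nxt w)⁻¹ (k, v)).1, g * ((theta out nxt w)⁻¹ (k, v)).2) := by
  have h := (commute_theta out nxt w g).inv_left
  have h' := congrArg (fun f : Equiv.Perm (Y × FreeGroup Y) => f (k, v)) h.eq
  simpa [lmul] using h'

@[simp] theorem tr_one (k : Y) : tr out nxt k 1 = 1 := by simp [tr]

theorem tr_of_mul (k i : Y) (w : FreeGroup Y) :
    tr out nxt k (FreeGroup.of i * w) = FreeGroup.of (out i k) * tr out nxt (nxt i k) w := by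
  unfold tr
  rw [map_mul, mul_inv_rev, Equiv.Perm.mul_apply]
  have h1 : (theta out nxt (FreeGroup.of i))⁻¹ (k, 1) =
      (nxt i k, FreeGroup.of (out i k) * 1) := by
    simp [theta, step]
  rw [h1, theta_lmul]

theorem tr_of_inv_mul (k i : Y) (w : FreeGroup Y) :
    tr out nxt k ((FreeGroup.of i)⁻¹ * w) =
      (FreeGroup.of (out i ((nxt i).symm k)))⁻¹ * tr out nxt ((nxt i).symm k) w := by
  have h := tr_of_mul out nxt ((nxt i).symm k) i ((FreeGroup.of i)⁻¹ * w)
  rw [mul_inv_cancel_left, Equiv.apply_symm_apply] at h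
  rw [h, inv_mul_cancel_left]

/-- Left induction principle on a free group. -/
theorem free_induction {P : FreeGroup Y → Prop} (h1 : P 1)
    (h2 : ∀ i w, P w → P (FreeGroup.of i * w))
    (h3 : ∀ i w, P w → P ((FreeGroup.of i)⁻¹ * w)) (w : FreeGroup Y) : P w := by
  have key : ∀ g : FreeGroup Y, ∀ w, P w → P (g * w) := by
    intro g
    induction g using FreeGroup.induction_on with
    | C1 => intro w hw; simpa using hw
    | of i => intro w hw; exact h2 i w hw
    | inv_of i _ => intro w hw; exact h3 i w hw
    | mul x y hx hy => intro w hw; rw [mul_assoc]; exact hx _ (hy _ hw)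
  simpa using key w 1 h1

theorem tr_tr (out' : Y → Y → Y) (nxt' : Y → Equiv.Perm Y)
    (h1 : ∀ i k, out' (out i k) k = i) (h2 : ∀ i k, nxt' (out i k) k = nxt i k)
    (w : FreeGroup Y) : ∀ k, tr out' nxt' k (tr out nxt k w) = w := by
  induction w using free_induction with
  | h1 => simp
  | h2 i w ih =>
    intro k
    rw [tr_of_mul, tr_of_mul, h1, h2, ih]
  | h3 i w ih =>
    intro k
    rw [tr_of_inv_mul, tr_of_inv_mul]
    have h : (nxt' (out i ((nxt i).symm k))).symm k = (nxt i).symm k := by
      rw [Equiv.symm_apply_eq, h2, Equiv.apply_symm_apply]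
    rw [h, h1, ih]

end Transducer

end Pool.Agent.DeltaX
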