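import Pool.Agent.MP_4d6048_al.Defs
import Pool.Agent.MP_4d6048_al.Transducer

/-!
The case where doubling is invertible: the group is not residually finite.
-/

namespace Pool.Agent.DeltaX

section Odd

variable {Y : Type*} [AddCommGroup Y] (h : Y →+ Y) (h1 : ∀ y, h y + h y = y)

include h1 in
theorem half_double (y : Y) : h (y + y) = y := by
  rw [map_add]; exact h1 y

/-- Output of the transducer for `b_k⁻¹`. -/
def outB (i k : Y) : Y := i + i - k
/-- Next state of the transducer for `b_k⁻¹`. -/
def nxtB (i : Y) : Equiv.Perm Y := Equiv.subRight i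
/-- Output of the transducer for `b_k`. -/
def outC (l k : Y) : Y := h (k + l)
/-- Next state of the transducer for `b_k`. -/
def nxtC (l : Y) : Equiv.Perm Y where
  toFun k := h (k - l)
  invFun k := k + k + l
  left_inv := by intro k; simp only [h1]; abel
  right_inv := by
    intro k
    change h (k + k + l - l) = k
    rw [add_sub_cancel_right]; exact half_double h h1 k

/-- The permutation of the free group given by `b_k⁻¹`. -/
def betaInv (k : Y) : Equiv.Perm (FreeGroup Y) where
  toFun := tr outB nxtB k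
  invFun := tr (outC h) (nxtC h h1) k
  left_inv := by
    intro w
    apply tr_tr
    · intro i k
      change h (k + (i + i - k)) = i
      rw [add_sub_cancel, half_double h h1]
    · intro i k
      change h (k - (i + i - k)) = k - i
      have : k - (i + i - k) = (k - i) + (k - i) := by abel
      rw [this, half_double h h1]
  right_inv := by
    intro w
    apply tr_tr
    · intro i k
      change h (k + i) + h (k + i) - k = i
      rw [h1]; abel
    · intro i k
      change k - h (k + i) = h (k - i)
      have e : h (k - i) + h (k + i) = k := by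
        rw [← map_add]
        have : k - i + (k + i) = k + k := by abel
        rw [this, half_double h h1]
      rw [sub_eq_iff_eq_add, e]

theorem betaInv_of_mul (k i : Y) (w : FreeGroup Y) :
    betaInv h h1 k (FreeGroup.of i * w) = FreeGroup.of (i + i - k) * betaInv h h1 (k - i) w :=
  tr_of_mul outB nxtB k i w

theorem betaInv_one (k : Y) : betaInv h h1 k 1 = 1 := tr_one outB nxtB k

/-- The action on the free group. -/
def act : PiOne Y →* Equiv.Perm (FreeGroup Y) :=
  lift (fun i => Equiv.mulLeft (FreeGroup.of i)) (fun k => (betaInv h h1 k)⁻¹) (by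
    intro i j
    rw [mul_inv_eq_iff_eq_mul, mul_assoc, eq_inv_mul_iff_mul_eq]
    apply Equiv.ext
    intro w
    simp only [Equiv.Perm.mul_apply, Equiv.coe_mulLeft, betaInv_of_mul]
    have e1 : i + i - (i + j) = i - j := by abel
    have e2 : i + j - i = j := by abel
    rw [e1, e2])

theorem act_a (i : Y) (w : FreeGroup Y) : act h h1 (a i) w = FreeGroup.of i * w := by
  simp [act]

theorem act_b (k : Y) : act h h1 (b k) = (betaInv h h1 k)⁻¹ := by
  simp [act]

/-- The embedding of the free group. -/
def iota : FreeGroup Y →* PiOne Y := FreeGroup.lift a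

@[simp] theorem iota_of (i : Y) : iota (FreeGroup.of i) = a i := by simp [iota]

theorem act_iota (w v : FreeGroup Y) : act h h1 (iota w) v = w * v := by
  have e : (act h h1).comp iota = (MulAction.toPermHom (FreeGroup Y) (FreeGroup Y)) := by
    apply FreeGroup.ext_hom
    intro i
    apply Equiv.ext
    intro v
    simp [act_a]
  have := congrArg (fun f : FreeGroup Y →* Equiv.Perm (FreeGroup Y) => f w v) e
  simpa using this

include h h1 in
theorem iota_injective : Function.Injective (iota : FreeGroup Y →* PiOne Y) := by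
  intro w w' hw
  have := act_iota h h1 w 1
  rw [hw, act_iota, mul_one, mul_one] at this
  exact this.symm

/-- The subgroup generated by the `b_j`. -/
def BB (Y : Type*) [AddCommGroup Y] : Subgroup (PiOne Y) := Subgroup.closure (Set.range b)

theorem b_mem (j : Y) : b j ∈ BB Y := Subgroup.subset_closure ⟨j, rfl⟩

theorem act_BB_one {g : PiOne Y} (hg : g ∈ BB Y) : act h h1 g 1 = 1 := by
  have : BB Y ≤ (MulAction.stabilizer (Equiv.Perm (FreeGroup Y)) (1 : FreeGroup Y)).comap
      (act h h1) := by
    unfold BB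
    rw [Subgroup.closure_le]
    rintro _ ⟨j, rfl⟩
    simp only [SetLike.mem_coe, Subgroup.mem_comap, MulAction.mem_stabilizer_iff,
      Equiv.Perm.smul_def]
    rw [act_b, Equiv.Perm.inv_eq_iff_eq, betaInv_one]
  simpa using this hg

/-- The special elements `a_p a_q⁻¹ a_r a_s⁻¹` with `s = p - q + r`. -/
def kap (p q r : Y) : FreeGroup Y :=
  FreeGroup.of p * (FreeGroup.of q)⁻¹ * FreeGroup.of r * (FreeGroup.of (p - q + r))⁻¹

theorem a_inv_b (q m : Y) : (a q)⁻¹ * b m = b (m - q) * (a (q + q - m))⁻¹ := by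
  have := rel q (m - q)
  rw [add_sub_cancel] at this
  rw [inv_mul_eq_iff_eq_mul, ← mul_assoc, this]
  have e : q - (m - q) = q + q - m := by abel
  rw [e]; group

theorem b_inv_a (k i : Y) : (b k)⁻¹ * a i = a (i + i - k) * (b (k - i))⁻¹ := by
  have := rel i (k - i)
  rw [add_sub_cancel] at this
  have e : i - (k - i) = i + i - k := by abel
  rw [e] at this
  rw [inv_mul_eq_iff_eq_mul, ← mul_assoc, ← this]; group

theorem pair_b (p q m : Y) : a p * (a q)⁻¹ * b m =
    b (m + (p - q)) * (a (p + q - m) * (a (q + q - m))⁻¹) := by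
  rw [mul_assoc, a_inv_b, ← mul_assoc, rel]
  have e1 : p + (m - q) = m + (p - q) := by abel
  have e2 : p - (m - q) = p + q - m := by abel
  rw [e1, e2, mul_assoc]

theorem iota_kap (p q r : Y) : iota (kap p q r) = a p * (a q)⁻¹ * (a r * (a (p - q + r))⁻¹) := by
  simp [kap, mul_assoc]

theorem kap_b (p q r m : Y) : iota (kap p q r) * b m =
    b m * iota (kap (p + p - m) (p + q - m) (p - q + (r + r) - m)) := by
  rw [iota_kap, iota_kap, mul_assoc, pair_b, ← mul_assoc, pair_b, mul_assoc]
  congr 1
  · congr 1; abel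
  · congr 1
    · congr 2
      · abel
      · congr 1; abel
    · congr 2
      · abel
      · congr 1; abel

/-- The finite invariant set. -/
def TT (Y : Type*) [AddCommGroup Y] : Set (PiOne Y) :=
  {g | ∃ p q r : Y, g = iota (kap p q r)}

theorem conj_inv_b_mem (m : Y) {g : PiOne Y} (hg : g ∈ TT Y) : (b m)⁻¹ * g * b m ∈ TT Y := by
  obtain ⟨p, q, r, rfl⟩ := hg
  refine ⟨p + p - m, p + q - m, p - q + (r + r) - m, ?_⟩
  rw [mul_assoc, kap_b, inv_mul_cancel_left]

include h1 in
theorem conj_b_mem (m : Y) {g : PiOne Y} (hg : g ∈ TT Y) : b m * g * (b m)⁻¹ ∈ TT Y := by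
  obtain ⟨P, Q, R, rfl⟩ := hg
  refine ⟨h (P + m), Q + m - h (P + m), h (R + m - h (P + m) + (Q + m - h (P + m))), ?_⟩
  rw [mul_inv_eq_iff_eq_mul, kap_b]
  have e1 : h (P + m) + h (P + m) - m = P := by rw [h1]; abel
  have e2 : h (P + m) + (Q + m - h (P + m)) - m = Q := by abel
  have e3 : h (P + m) - (Q + m - h (P + m)) +
    (h (R + m - h (P + m) + (Q + m - h (P + m))) +
      h (R + m - h (P + m) + (Q + m - h (P + m)))) - m = R := by
    rw [h1]; abel
  rw [e1, e2, e3]

include h1 in
theorem conj_BB_mem {c : PiOne Y} (hc : c ∈ BB Y) :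
    ∀ g ∈ TT Y, c * g * c⁻¹ ∈ TT Y := by
  unfold BB at hc
  induction hc using Subgroup.closure_induction_left with
  | one => intro g hg; simpa using hg
  | mul_left x hx y _ ih =>
    obtain ⟨m, rfl⟩ := hx
    intro g hg
    have := conj_b_mem h h1 m (ih g hg)
    simpa [mul_assoc] using this
  | inv_mul_cancel x hx y _ ih =>
    obtain ⟨m, rfl⟩ := hx
    intro g hg
    have := conj_inv_b_mem m (ih g hg)
    simpa [mul_assoc] using this

include h1 in
theorem BB_mul_a {c : PiOne Y} (hc : c ∈ BB Y) :
    ∀ i : Y, ∃ i' : Y, ∃ c' ∈ BB Y, c * a i = a i' * c' := by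
  unfold BB at hc
  induction hc using Subgroup.closure_induction_left with
  | one => intro i; exact ⟨i, 1, one_mem _, by simp⟩
  | mul_left x hx y _ ih =>
    obtain ⟨k, rfl⟩ := hx
    intro i
    obtain ⟨l, c', hc', e⟩ := ih i
    have hr := rel (h (k + l)) (h (k + l) - l)
    have e1 : h (k + l) + (h (k + l) - l) = k := by
      have : h (k + l) + (h (k + l) - l) = (h (k + l) + h (k + l)) - l := by abel
      rw [this, h1]; abel
    rw [e1, sub_sub_cancel] at hr
    refine ⟨h (k + l), b (h (k + l) - l) * c', mul_mem (b_mem _) hc', ?_⟩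
    rw [mul_assoc, e, ← mul_assoc, ← hr, mul_assoc]
  | inv_mul_cancel x hx y _ ih =>
    obtain ⟨k, rfl⟩ := hx
    intro i
    obtain ⟨l, c', hc', e⟩ := ih i
    refine ⟨l + l - k, (b (k - l))⁻¹ * c', mul_mem (inv_mem (b_mem _)) hc', ?_⟩
    rw [mul_assoc, e, ← mul_assoc, b_inv_a, mul_assoc]

/-- The second finite invariant set. -/
def TT' (Y : Type*) [AddCommGroup Y] : Set (PiOne Y) :=
  {g | ∃ i : Y, ∃ k ∈ TT Y, g = a i * k * (a i)⁻¹}

include h1 in
theorem conj_BB_mem' {c : PiOne Y} (hc : c ∈ BB Y) :
    ∀ g ∈ TT' Y, c * g * c⁻¹ ∈ TT' Y := by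
  rintro _ ⟨i, k, hk, rfl⟩
  obtain ⟨i', c', hc', e⟩ := BB_mul_a h h1 hc i
  refine ⟨i', c' * k * c'⁻¹, conj_BB_mem h h1 hc' k hk, ?_⟩
  have e2 : c = a i' * c' * (a i)⁻¹ := by rw [← e]; group
  rw [e2]; group

theorem TT_finite [Finite Y] : (TT Y).Finite := by
  have : TT Y = Set.range (fun x : Y × Y × Y => iota (kap x.1 x.2.1 x.2.2)) := by
    ext g
    constructor
    · rintro ⟨p, q, r, rfl⟩; exact ⟨(p, q, r), rfl⟩
    · rintro ⟨⟨p, q, r⟩, rfl⟩; exact ⟨p, q, r, rfl⟩
  rw [this]
  exact Set.finite_range _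

theorem TT'_finite [Finite Y] : (TT' Y).Finite := by
  have : TT' Y = ⋃ i : Y, (fun k => a i * k * (a i)⁻¹) '' (TT Y) := by
    ext g
    rw [Set.mem_iUnion]
    constructor
    · rintro ⟨i, k, hk, rfl⟩; exact ⟨i, k, hk, rfl⟩
    · rintro ⟨i, k, hk, rfl⟩; exact ⟨i, k, hk, rfl⟩
  rw [this]
  exact Set.finite_iUnion (fun i => TT_finite.image _)

/-- Comparing two words of length six in the free group. -/
theorem free_compare [DecidableEq Y] {e i i' p q r : Y} (he : e ≠ 0)
    (heq : FreeGroup.of i' * kap p q r * (FreeGroup.of i')⁻¹ =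
      FreeGroup.of i * kap 0 e 0 * (FreeGroup.of i)⁻¹) : i' = i := by
  have e1 : FreeGroup.of i' * kap p q r * (FreeGroup.of i')⁻¹ =
      FreeGroup.mk [(i', true), (p, true), (q, false), (r, true), (p - q + r, false),
        (i', false)] := by
    simp [kap, FreeGroup.of, FreeGroup.mul_mk, FreeGroup.inv_mk, FreeGroup.invRev]
  have e2 : FreeGroup.of i * kap 0 e 0 * (FreeGroup.of i)⁻¹ =
      FreeGroup.mk [(i, true), (0, true), (e, false), (0, true), (0 - e + 0, false),
        (i, false)] := by
    simp [kap, FreeGroup.of, FreeGroup.mul_mk, FreeGroup.inv_mk, FreeGroup.invRev]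
  rw [e1, e2] at heq
  have hred : FreeGroup.IsReduced [(i, true), ((0 : Y), true), (e, false), (0, true),
      (0 - e + 0, false), (i, false)] := by
    simp [FreeGroup.IsReduced, he, he.symm]
  have h3 := FreeGroup.reduce.sound heq
  rw [hred.reduce_eq] at h3
  have h4 := FreeGroup.reduce.red (L := [(i', true), (p, true), (q, false), (r, true),
    (p - q + r, false), (i', false)])
  rw [h3] at h4
  have h5 := h4.sublist.eq_of_length (by simp)
  simp at h5
  exact h5.1.symm

/-- Separating a finite set of nontrivial elements from `1`. -/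
theorem exists_separating {G : Type*} [Group G] [Group.ResiduallyFinite G] (D : Set G)
    (hD : D.Finite) (h1 : (1 : G) ∉ D) :
    ∃ N : Subgroup G, N.Normal ∧ N.FiniteIndex ∧ ∀ g ∈ D, g ∉ N := by
  induction D, hD using Set.Finite.induction_on with
  | empty => exact ⟨⊤, inferInstance, inferInstance, by simp⟩
  | @insert x s hx hs ih =>
    have hx1 : x ≠ 1 := fun e => h1 (by rw [e]; exact Set.mem_insert _ _)
    obtain ⟨N, hN1, hN2, hN3⟩ := ih (fun e => h1 (Set.mem_insert_of_mem _ e))
    obtain ⟨K, hK⟩ := Group.exists_finiteIndexNormalSubgroup_notMem x hx1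
    have hK2 : K.toSubgroup.FiniteIndex := K.isFiniteIndex'
    have hK3 : K.toSubgroup.Normal := K.isNormal'
    refine ⟨N ⊓ K.toSubgroup, inferInstance, inferInstance, ?_⟩
    intro g hg hgN
    rcases Set.mem_insert_iff.mp hg with rfl | hg
    · exact hK hgN.2
    · exact hN3 g hg hgN.1

/-- Positive words. -/
def W (l : List Y) : FreeGroup Y := (l.map FreeGroup.of).prod

/-- The transformation of lists. -/
def T : Y → List Y → List Y
  | _, [] => []
  | k, i :: l => (i + i - k) :: T (k - i) l

theorem T_length (k : Y) (l : List Y) : (T k l).length = l.length := by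
  induction l generalizing k with
  | nil => rfl
  | cons i l ih => simp [T, ih]

theorem betaInv_W (k : Y) (l : List Y) : betaInv h h1 k (W l) = W (T k l) := by
  induction l generalizing k with
  | nil => exact betaInv_one h h1 k
  | cons i l ih =>
    simp only [W, List.map_cons, List.prod_cons, T] at ih ⊢
    rw [betaInv_of_mul, ih]

omit [AddCommGroup Y] in
theorem W_injective : Function.Injective (W : List Y → FreeGroup Y) := by
  classical
  have key : ∀ l : List Y, W l = FreeGroup.mk (l.map (fun i => (i, true))) := by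
    intro l
    induction l with
    | nil => rfl
    | cons i l ih =>
      have : W (i :: l) = FreeGroup.of i * W l := by simp [W]
      rw [this, ih, FreeGroup.of, FreeGroup.mul_mk]
      rfl
  have hred : ∀ l : List Y, FreeGroup.IsReduced (l.map (fun i => (i, true))) := by
    intro l
    induction l with
    | nil => exact FreeGroup.IsReduced.nil
    | cons i l ih =>
      cases l with
      | nil => exact FreeGroup.IsReduced.singleton
      | cons j l =>
        simp only [List.map_cons] at ih ⊢
        rw [FreeGroup.isReduced_cons_cons]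
        exact ⟨by simp, ih⟩
  intro l l' hl
  rw [key, key] at hl
  have := FreeGroup.reduce.sound hl
  rw [(hred l).reduce_eq, (hred l').reduce_eq] at this
  exact List.map_injective_iff.mpr (fun x y hxy => by simpa using hxy) this

include h h1 in
/-- The main consequence of residual finiteness. -/
theorem exists_period [Finite Y] [Group.ResiduallyFinite (PiOne Y)] {e : Y} (he : e ≠ 0) :
    ∃ M : ℕ, 0 < M ∧ ∀ l : List Y, (T 0)^[M] l = l := by
  classical
  let D : Set (PiOne Y) := {g | g ≠ 1 ∧ ∃ s ∈ TT' Y, ∃ t ∈ TT' Y, g = s * t⁻¹}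
  have hDfin : D.Finite := by
    apply ((TT'_finite (Y := Y)).image2 (fun s t => s * t⁻¹) (TT'_finite (Y := Y))).subset
    rintro g ⟨-, s, hs, t, ht, rfl⟩
    exact ⟨s, hs, t, ht, rfl⟩
  obtain ⟨N, hN1, hN2, hN3⟩ := exists_separating D hDfin (fun hh => hh.1 rfl)
  have comm : ∀ c ∈ BB Y, c ∈ N → ∀ t ∈ TT' Y, c * t * c⁻¹ = t := by
    intro c hc hcN t ht
    by_contra hne
    apply hN3 (c * t * c⁻¹ * t⁻¹) ⟨?_, _, conj_BB_mem' h h1 hc t ht, t, ht, rfl⟩
    · have : c * t * c⁻¹ * t⁻¹ = c * (t * c⁻¹ * t⁻¹) := by group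
      rw [this]
      exact mul_mem hcN (hN1.conj_mem _ (inv_mem hcN) _)
    · intro h0
      exact hne (mul_inv_eq_one.mp h0)
  have stepc : ∀ c ∈ BB Y, c ∈ N → ∀ i : Y, ∃ c' ∈ BB Y, c' ∈ N ∧ c * a i = a i * c' := by
    intro c hc hcN i
    obtain ⟨i', c', hc', e1⟩ := BB_mul_a h h1 hc i
    have hk : iota (kap 0 e 0) ∈ TT Y := ⟨0, e, 0, rfl⟩
    obtain ⟨p, q, r, hpqr⟩ := conj_BB_mem h h1 hc' _ hk
    have h2 := comm c hc hcN (a i * iota (kap 0 e 0) * (a i)⁻¹) ⟨i, _, hk, rfl⟩
    have h3 : c * (a i * iota (kap 0 e 0) * (a i)⁻¹) * c⁻¹ =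
        a i' * (c' * iota (kap 0 e 0) * c'⁻¹) * (a i')⁻¹ := by
      have e2 : c = a i' * c' * (a i)⁻¹ := by rw [← e1]; group
      rw [e2]; group
    rw [h3, hpqr] at h2
    have h4 : FreeGroup.of i' * kap p q r * (FreeGroup.of i')⁻¹ =
      FreeGroup.of i * kap 0 e 0 * (FreeGroup.of i)⁻¹ := by
      apply iota_injective h h1
      simpa using h2
    have h5 := free_compare he h4
    subst h5
    refine ⟨c', hc', ?_, e1⟩
    have e2 : c' = (a i')⁻¹ * c * (a i')⁻¹⁻¹ := by
      rw [inv_inv, mul_assoc, e1]; group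
    rw [e2]
    exact hN1.conj_mem _ hcN _
  have fixW : ∀ l : List Y, ∀ c ∈ BB Y, c ∈ N → act h h1 c (W l) = W l := by
    intro l
    induction l with
    | nil => intro c hc _; exact act_BB_one h h1 hc
    | cons i l ih =>
      intro c hc hcN
      obtain ⟨c', hc', hcN', e1⟩ := stepc c hc hcN i
      have e2 : W (i :: l) = FreeGroup.of i * W l := by simp [W]
      rw [e2, ← act_a h h1, ← Equiv.Perm.mul_apply, ← map_mul, e1, map_mul,
        Equiv.Perm.mul_apply, ih c' hc' hcN']
  -- a power of `b 0` lies in `N`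
  obtain ⟨M, hM0, hM⟩ : ∃ M : ℕ, 0 < M ∧ (b (0 : Y)) ^ M ∈ N := by
    have := hN2
    refine ⟨N.index, Nat.pos_of_ne_zero hN2.index_ne_zero, ?_⟩
    exact N.pow_index_mem _
  refine ⟨M, hM0, ?_⟩
  intro l
  apply W_injective
  have h6 := fixW ((T 0)^[M] l) _ (pow_mem (b_mem 0) M) hM
  have h7 : ∀ (n : ℕ) (l : List Y), ((betaInv h h1 0) ^ n) (W l) = W ((T 0)^[n] l) := by
    intro n
    induction n with
    | zero => intro l; rfl
    | succ n ih =>
      intro l
      rw [pow_succ, Equiv.Perm.mul_apply, betaInv_W, ih, Function.iterate_succ_apply]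
  rw [map_pow, act_b, ← h7, ← Equiv.Perm.mul_apply, inv_pow, inv_mul_cancel] at h6
  rw [← h7]
  simpa using h6.symm

/-- The polynomial attached to a list. -/
noncomputable def SP {R : Type*} [CommRing R] : List R → Polynomial R
  | [] => 0
  | i :: l => Polynomial.C i + Polynomial.X * SP l

theorem SP_T {R : Type*} [CommRing R] (k : R) (l : List R) :
    ∃ q : Polynomial R, (1 - Polynomial.X) * SP (T k l) =
      (2 - Polynomial.X) * SP l - Polynomial.C k + Polynomial.X ^ l.length * q := by
  induction l generalizing k with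
  | nil => exact ⟨Polynomial.C k, by simp [T, SP]⟩
  | cons i l ih =>
    obtain ⟨q, hq⟩ := ih (k - i)
    refine ⟨q, ?_⟩
    simp only [T, SP, List.length_cons, map_add, map_sub]
    have : (1 - Polynomial.X) * (Polynomial.C i + Polynomial.C i - Polynomial.C k +
        Polynomial.X * SP (T (k - i) l)) =
        (1 - Polynomial.X) * (Polynomial.C i + Polynomial.C i - Polynomial.C k) +
        Polynomial.X * ((1 - Polynomial.X) * SP (T (k - i) l)) := by ring
    rw [this, hq, map_sub]
    ring

theorem SP_T_iter {R : Type*} [CommRing R] (n : ℕ) (l : List R) :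
    ∃ q : Polynomial R, (1 - Polynomial.X) ^ n * SP ((T 0)^[n] l) =
      (2 - Polynomial.X) ^ n * SP l + Polynomial.X ^ l.length * q := by
  induction n generalizing l with
  | zero => exact ⟨0, by simp⟩
  | succ n ih =>
    obtain ⟨q, hq⟩ := ih (T 0 l)
    obtain ⟨q', hq'⟩ := SP_T 0 l
    refine ⟨(1 - Polynomial.X) * q + (2 - Polynomial.X) ^ n * q', ?_⟩
    rw [Function.iterate_succ_apply, pow_succ', mul_assoc, hq, mul_add]
    have : (1 - Polynomial.X) * ((2 - Polynomial.X) ^ n * SP (T 0 l)) =
      (2 - Polynomial.X) ^ n * ((1 - Polynomial.X) * SP (T 0 l)) := by ring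
    rw [this, hq', T_length]
    simp only [map_zero]
    ring

theorem no_period {R : Type*} [CommRing R] [IsDomain R] (M : ℕ) (hM : 0 < M)
    (hT : ∀ l : List R, (T 0)^[M] l = l) : False := by
  obtain ⟨q, hq⟩ := SP_T_iter M ((1 : R) :: List.replicate M 0)
  rw [hT] at hq
  have hS : SP ((1 : R) :: List.replicate M 0) = 1 := by
    have : ∀ n, SP (List.replicate n (0 : R)) = 0 := by
      intro n
      induction n with
      | zero => rfl
      | succ n ih => simp [List.replicate_succ, SP, ih]
    simp [SP, this]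
  rw [hS, mul_one, mul_one, List.length_cons, List.length_replicate] at hq
  have hdvd : (Polynomial.X : Polynomial R) ^ (M + 1) ∣
      (1 - Polynomial.X) ^ M - (2 - Polynomial.X) ^ M := ⟨q, by rw [hq]; ring⟩
  have hdeg : ((1 - Polynomial.X : Polynomial R) ^ M - (2 - Polynomial.X) ^ M).natDegree <
      M + 1 := by
    have e1 : (1 - Polynomial.X : Polynomial R).natDegree ≤ 1 := by
      have : (1 - Polynomial.X : Polynomial R) = -(Polynomial.X - Polynomial.C 1) := by
        simp
      rw [this, Polynomial.natDegree_neg]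
      exact Polynomial.natDegree_X_sub_C_le _
    have e2 : (2 - Polynomial.X : Polynomial R).natDegree ≤ 1 := by
      have : (2 - Polynomial.X : Polynomial R) = -(Polynomial.X - Polynomial.C 2) := by
        rw [Polynomial.C_ofNat]; ring
      rw [this, Polynomial.natDegree_neg]
      exact Polynomial.natDegree_X_sub_C_le _
    have e3 := Polynomial.natDegree_pow_le_of_le M e1
    have e4 := Polynomial.natDegree_pow_le_of_le M e2
    have e5 := Polynomial.natDegree_sub_le ((1 - Polynomial.X : Polynomial R) ^ M)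
      ((2 - Polynomial.X) ^ M)
    omega
  have h0 : (1 - Polynomial.X : Polynomial R) ^ M - (2 - Polynomial.X) ^ M = 0 := by
    by_contra hne
    have := (Polynomial.monic_X_pow (R := R) (M + 1)).not_dvd_of_natDegree_lt hne
      (by rw [Polynomial.natDegree_X_pow]; exact hdeg)
    exact this hdvd
  have h1 := congrArg (Polynomial.eval 1) h0
  simp [hM.ne'] at h1
  norm_num at h1

theorem T_map {Z : Type*} [AddCommGroup Z] (φ : Z →+ Y) (k : Z) (l : List Z) :
    T (φ k) (l.map φ) = (T k l).map φ := by
  induction l generalizing k with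
  | nil => rfl
  | cons i l ih => simp [T, ← map_add, ← map_sub, ih]

include h h1 in
/-- Non-residual-finiteness when doubling is invertible. -/
theorem not_residuallyFinite_odd [Finite Y] (p : ℕ) [Fact p.Prime]
    (φ : ZMod p →+ Y) (hφ : Function.Injective φ) : ¬ Group.ResiduallyFinite (PiOne Y) := by
  intro hRF
  have he : φ 1 ≠ 0 := by
    intro h0
    exact one_ne_zero (hφ (by rw [h0, map_zero]))
  obtain ⟨M, hM0, hM⟩ := exists_period h h1 he
  apply no_period (R := ZMod p) M hM0
  intro l
  apply List.map_injective_iff.mpr hφ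
  rw [← hM (l.map φ)]
  have : ∀ (n : ℕ) (l : List (ZMod p)), ((T 0)^[n] l).map φ = (T 0)^[n] (l.map φ) := by
    intro n
    induction n with
    | zero => intro l; rfl
    | succ n ih =>
      intro l
      rw [Function.iterate_succ_apply, ih, ← T_map, map_zero, ← Function.iterate_succ_apply]
  exact this M l

end Odd

end Pool.Agent.DeltaX
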