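import Pool.Agent.MP_4d6048_al.TwoRF
import Pool.Agent.MP_4d6048_al.Odd

/-!
The general case.
-/

namespace Pool.Agent.DeltaX

universe u

theorem not_residuallyFinite_of_card (X : Type u) [AddCommGroup X] [Finite X]
    (hX : ¬ ∃ k : ℕ, Nat.card X = 2 ^ k) : ¬ Group.ResiduallyFinite (PiOne X) := by
  intro hRF
  obtain ⟨k, m, hm, hcard⟩ := Nat.exists_eq_two_pow_mul_odd (n := Nat.card X) Nat.card_pos.ne'
  have hm1 : m ≠ 1 := by
    rintro rfl
    exact hX ⟨k, by simpa using hcard⟩
  obtain ⟨p, hp, hpm⟩ := Nat.exists_prime_and_dvd hm1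
  have : Fact p.Prime := ⟨hp⟩
  have hpc : p ∣ Nat.card X := hcard ▸ (hpm.mul_left _)
  obtain ⟨z, hz⟩ := exists_prime_addOrderOf_dvd_card' p hpc
  -- the `m`-torsion subgroup
  let Y : AddSubgroup X := (nsmulAddMonoidHom (α := X) m).ker
  have hY : ∀ w : X, w ∈ Y ↔ m • w = 0 := fun w => Iff.rfl
  have hcop : Nat.Coprime (2 ^ k) m := Nat.Coprime.pow_left k (Nat.coprime_two_left.mpr hm)
  let c : ℕ := (Nat.chineseRemainder hcop 0 1 : ℕ)
  have hc1 : c ≡ 0 [MOD 2 ^ k] := (Nat.chineseRemainder hcop 0 1).2.1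
  have hc2 : c ≡ 1 [MOD m] := (Nat.chineseRemainder hcop 0 1).2.2
  have hkill : ∀ w : X, m • (c • w) = 0 := by
    intro w
    rw [← mul_smul]
    have hd : Nat.card X ∣ m * c := by
      rw [hcard, mul_comm m c]
      exact Nat.mul_dvd_mul ((Nat.modEq_zero_iff_dvd).mp hc1) dvd_rfl
    obtain ⟨d, hd⟩ := hd
    rw [hd, mul_smul, card_nsmul_eq_zero']
  let ρ : X →+ Y :=
    { toFun := fun w => ⟨c • w, hkill w⟩
      map_zero' := by ext; simp
      map_add' := by intro u v; ext; simp [smul_add] }
  have hρ : ∀ w : Y, ρ (w : X) = w := by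
    intro w
    ext
    change c • (w : X) = w
    have hw : m • (w : X) = 0 := w.2
    have : c • (w : X) = 1 • (w : X) := by
      rw [← mod_addOrderOf_nsmul, ← mod_addOrderOf_nsmul (x := (w : X)) 1]
      have hd : addOrderOf (w : X) ∣ m := addOrderOf_dvd_of_nsmul_eq_zero hw
      have := hc2.of_dvd hd
      rw [this]
    rw [this, one_smul]
  have hinj : Function.Injective (map Y.subtype) := by
    have e : (map ρ).comp (map Y.subtype) = MonoidHom.id _ := by
      apply hom_ext
      · intro i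
        simp only [MonoidHom.comp_apply, map_a, MonoidHom.id_apply]
        exact congrArg a (hρ i)
      · intro i
        simp only [MonoidHom.comp_apply, map_b, MonoidHom.id_apply]
        exact congrArg b (hρ i)
    intro g g' hg
    have := congrArg (map ρ) hg
    rw [← MonoidHom.comp_apply, ← MonoidHom.comp_apply, e] at this
    exact this
  have hRFY : Group.ResiduallyFinite (PiOne Y) := residuallyFinite_of_injective _ hinj
  -- halving
  let h : Y →+ Y := nsmulAddMonoidHom (α := Y) ((m + 1) / 2)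
  have h1 : ∀ y : Y, h y + h y = y := by
    intro y
    change ((m + 1) / 2) • y + ((m + 1) / 2) • y = y
    rw [← add_smul]
    have : (m + 1) / 2 + (m + 1) / 2 = m + 1 := by
      obtain ⟨t, rfl⟩ := hm
      omega
    rw [this, add_smul, one_smul]
    have : m • y = 0 := by
      ext
      exact y.2
    rw [this, zero_add]
  -- an element of order `p`
  have hzY : z ∈ Y := by
    rw [hY]
    obtain ⟨t, rfl⟩ := hpm
    rw [mul_comm, mul_smul, ← hz, addOrderOf_nsmul_eq_zero, smul_zero]
  let z' : Y := ⟨z, hzY⟩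
  have hz' : addOrderOf z' = p := by
    rw [← hz]
    exact (AddSubgroup.addOrderOf_mk z hzY)
  let φ : ZMod p →+ Y := ZMod.lift p ⟨zmultiplesHom Y z', by
    simp only [zmultiplesHom_apply, natCast_zsmul]
    rw [← hz', addOrderOf_nsmul_eq_zero]⟩
  have hφ : Function.Injective φ := by
    rw [ZMod.lift_injective]
    intro n hn
    simp only [zmultiplesHom_apply] at hn
    rw [ZMod.intCast_zmod_eq_zero_iff_dvd, ← hz']
    exact addOrderOf_dvd_iff_zsmul_eq_zero.mpr hn
  exact not_residuallyFinite_odd h h1 p φ hφ hRFY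

theorem residuallyFinite_of_card (X : Type u) [AddCommGroup X] [Finite X] (k : ℕ)
    (hX : Nat.card X = 2 ^ k) : Group.ResiduallyFinite (PiOne X) := by
  apply residuallyFinite_two
  refine ⟨k, fun z => ?_⟩
  rw [← hX, card_nsmul_eq_zero']

end Pool.Agent.DeltaX
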