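import Mathlib.GroupTheory.PresentedGroup
import Mathlib.GroupTheory.ResiduallyFinite

/-!
The presentation of the fundamental group of the one-vertex square complex attached to a finite
abelian group.
-/

namespace Pool.Agent.DeltaX

/-- The relators `a_i b_j a_{i-j}⁻¹ b_{i+j}⁻¹` of the fundamental group of the square complex
attached to the abelian group `X`.  The generator `a_i` is `Sum.inl i`, the generator `b_j` is
`Sum.inr j`. -/
def relators (X : Type*) [AddCommGroup X] : Set (FreeGroup (X ⊕ X)) :=
  {r | ∃ i j : X, r = FreeGroup.of (Sum.inl i) * FreeGroup.of (Sum.inr j) *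
    (FreeGroup.of (Sum.inl (i - j)))⁻¹ * (FreeGroup.of (Sum.inr (i + j)))⁻¹}

end Pool.Agent.DeltaX
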