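import Pool.Agent.MP_4d6048_al.Defs
import Mathlib.Tactic

/-!
The case of a finite abelian 2-group: structure of the group.
-/

namespace Pool.Agent.DeltaX

section Two

variable {X : Type*} [AddCommGroup X]

/-- `x_i = a_0⁻¹ a_i`. -/
def x (i : X) : PiOne X := (a 0)⁻¹ * a i

/-- Conjugation by `b_0`. -/
def tau : MulAut (PiOne X) := MulAut.conj (b 0)

/-- Conjugation by `a_0⁻¹`. -/
def sigma : MulAut (PiOne X) := MulAut.conj (a 0)⁻¹

theorem tau_apply (g : PiOne X) : tau g = b 0 * g * (b 0)⁻¹ := rfl
theorem sigma_apply (g : PiOne X) : sigma g = (a 0)⁻¹ * g * a 0 := by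
  simp [sigma]

theorem comm_ab : a (0 : X) * b 0 = b 0 * a 0 := by
  simpa using rel (0 : X) 0

theorem tau_sigma_comm : (tau : MulAut (PiOne X)) * sigma = sigma * tau := by
  have h : Commute (b (0 : X)) (a 0)⁻¹ := (Commute.inv_right (comm_ab (X := X)).symm)
  unfold tau sigma
  rw [← map_mul, ← map_mul, h.eq]

@[simp] theorem x_zero : x (0 : X) = 1 := by simp [x]

theorem a_eq (i : X) : a i = a 0 * x i := by simp [x]

/-- `y_j = b_j b_0⁻¹`. -/
def y (j : X) : PiOne X := b j * (b 0)⁻¹

@[simp] theorem y_zero : y (0 : X) = 1 := by simp [y]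

theorem b_eq (j : X) : b j = y j * b 0 := by simp [y]

theorem rel_xy (i j : X) : x i * y j = sigma (y (i + j)) * tau (x (i - j)) := by
  have h := rel i j
  rw [a_eq i, b_eq j, b_eq (i + j), a_eq (i - j)] at h
  have e : x i * y j = (a 0)⁻¹ * (a 0 * x i * (y j * b 0)) * (b 0)⁻¹ := by group
  rw [e, h, sigma_apply, tau_apply]
  have e2 : (a (0 : X))⁻¹ * y (i + j) * a 0 * (b 0 * x (i - j) * (b 0)⁻¹) =
    (a 0)⁻¹ * y (i + j) * (a 0 * b 0) * x (i - j) * (b 0)⁻¹ := by group
  rw [e2, comm_ab]
  group

theorem sigma_y (i : X) : sigma (y i) = x i * (tau (x i))⁻¹ := by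
  have h := rel_xy i 0
  rw [y_zero, mul_one, add_zero, sub_zero] at h
  rw [eq_mul_inv_iff_mul_eq]
  exact h.symm

theorem y_eq (j : X) : y j = x j * (tau (x j))⁻¹ * tau (x (-j)) := by
  have h := rel_xy 0 j
  rw [x_zero, one_mul, zero_add, zero_sub, sigma_y] at h
  exact h

theorem rel_x (i j : X) : x i * (x j * (tau (x j))⁻¹ * tau (x (-j))) =
    x (i + j) * (tau (x (i + j)))⁻¹ * tau (x (i - j)) := by
  have h := rel_xy i j
  rw [sigma_y, y_eq] at h
  exact h

theorem x_add_aux (r : ℕ) : ∀ j : X, 2 ^ r • j = 0 → ∀ i : X, x (i + j) = x i * x j := by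
  induction r with
  | zero =>
    intro j hj i
    have : j = 0 := by simpa using hj
    subst this; simp
  | succ r ih =>
    intro j hj i
    have hm : 2 ^ r • (-(j + j)) = 0 := by
      rw [smul_neg, ← two_nsmul, ← mul_smul, ← pow_succ, hj, neg_zero]
    have e1 : i - j = (i + j) + -(j + j) := by abel
    have e2 : -j = j + -(j + j) := by abel
    have h := rel_x i j
    rw [e1, ih _ hm (i + j)] at h
    rw [show x (-j) = x j * x (-(j + j)) by rw [← ih _ hm j, ← e2]] at h
    rw [map_mul, map_mul] at h
    have h' : x i * x j * tau (x (-(j + j))) = x (i + j) * tau (x (-(j + j))) := by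
      calc x i * x j * tau (x (-(j + j)))
          = x i * (x j * (tau (x j))⁻¹ * (tau (x j) * tau (x (-(j + j))))) := by group
        _ = x (i + j) * (tau (x (i + j)))⁻¹ * (tau (x (i + j)) * tau (x (-(j + j)))) := h
        _ = _ := by group
    exact (mul_right_cancel h').symm

variable (hX : ∃ r : ℕ, ∀ z : X, 2 ^ r • z = 0)

include hX in
theorem x_add (i j : X) : x (i + j) = x i * x j := by
  obtain ⟨r, hr⟩ := hX
  exact x_add_aux r j (hr j) i

include hX in
theorem x_neg (i : X) : x (-i) = (x i)⁻¹ := by
  have h := x_add hX i (-i)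
  rw [add_neg_cancel, x_zero] at h
  exact (inv_eq_of_mul_eq_one_right h.symm).symm

include hX in
theorem x_comm (i j : X) : Commute (x i) (x j) := by
  unfold Commute SemiconjBy
  rw [← x_add hX, ← x_add hX, add_comm]

/-- `φ(j) = x_j τ(x_{-2j})`. -/
def phi (j : X) : PiOne X := x j * tau (x (-(j + j)))
/-- `ψ(j) = x_j τ(x_{-j})`. -/
def psi (j : X) : PiOne X := x j * tau (x (-j))

include hX in
theorem y_eq_phi (j : X) : y j = phi j := by
  rw [y_eq, phi, mul_assoc, neg_add, x_add hX, x_neg hX, map_mul, map_inv]

include hX in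
theorem sigma_phi (j : X) : sigma (phi j) = psi j := by
  rw [← y_eq_phi hX, sigma_y, psi, x_neg hX, map_inv]

include hX in
theorem comm_one_aux (r : ℕ) : ∀ m : X, 2 ^ r • m = 0 → ∀ j : X, Commute (x j) (tau (x m)) := by
  induction r with
  | zero =>
    intro m hm j
    have : m = 0 := by simpa using hm
    subst this; simp
  | succ r ih =>
    intro m hm j
    have hn : 2 ^ r • (-(m + m)) = 0 := by
      rw [smul_neg, ← two_nsmul, ← mul_smul, ← pow_succ, hm, neg_zero]
    have h1 : phi (m + j) = phi m * phi j := by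
      unfold phi
      have e : -(m + j + (m + j)) = -(m + m) + -(j + j) := by abel
      rw [e, x_add hX, x_add hX, map_mul]
      have := (ih _ hn j).eq
      calc x m * x j * (tau (x (-(m + m))) * tau (x (-(j + j))))
          = x m * (x j * tau (x (-(m + m)))) * tau (x (-(j + j))) := by group
        _ = x m * (tau (x (-(m + m))) * x j) * tau (x (-(j + j))) := by rw [this]
        _ = _ := by group
    have h2 : psi (m + j) = psi m * psi j := by
      rw [← sigma_phi hX, h1, map_mul, sigma_phi hX, sigma_phi hX]
    unfold psi at h2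
    rw [neg_add, x_add hX, x_add hX, map_mul] at h2
    have h3 : x j * tau (x (-m)) = tau (x (-m)) * x j := by
      have h4 : x m * (x j * tau (x (-m))) * tau (x (-j)) =
          x m * (tau (x (-m)) * x j) * tau (x (-j)) := by
        calc x m * (x j * tau (x (-m))) * tau (x (-j)) =
            x m * x j * (tau (x (-m)) * tau (x (-j))) := by group
          _ = x m * tau (x (-m)) * (x j * tau (x (-j))) := h2
          _ = _ := by group
      exact mul_left_cancel (mul_right_cancel h4)
    have h5 : Commute (x j) (tau (x (-m))) := h3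
    rw [x_neg hX, map_inv] at h5
    simpa using h5.inv_right

include hX in
theorem comm_one (i j : X) : Commute (x i) (tau (x j)) := by
  obtain ⟨r, hr⟩ := id hX
  exact comm_one_aux hX r j (hr j) i

theorem commute_aut {G : Type*} [Group G] {f : MulAut G} {g h : G} (hc : Commute g h) :
    Commute (f g) (f h) := by
  unfold Commute SemiconjBy at *
  rw [← map_mul, ← map_mul, hc]

theorem tau_pow_succ (k : ℕ) (g : PiOne X) : (tau ^ (k + 1)) g = (tau ^ k) (tau g) := by
  rw [pow_succ, MulAut.mul_apply]

theorem tau_pow_succ' (k : ℕ) (g : PiOne X) : (tau ^ (k + 1)) g = tau ((tau ^ k) g) := by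
  rw [pow_succ', MulAut.mul_apply]

theorem sigma_tau_pow (k : ℕ) (g : PiOne X) : sigma ((tau ^ k) g) = (tau ^ k) (sigma g) := by
  have h : Commute (sigma : MulAut (PiOne X)) tau := tau_sigma_comm.symm
  have := (h.pow_right k).eq
  exact congrArg (fun f : MulAut (PiOne X) => f g) this

include hX in
theorem comm_all (k : ℕ) : ∀ i j : X, Commute (x i) ((tau ^ k) (x j)) := by
  induction k using Nat.strong_induction_on with
  | _ k ih =>
    match k, ih with
    | 0, _ => intro i j; simpa using x_comm hX i j
    | 1, _ => intro i j; simpa using comm_one hX i j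
    | k + 2, ih =>
      have key : ∀ r : ℕ, ∀ j : X, 2 ^ r • j = 0 → ∀ i : X,
          Commute (x i) ((tau ^ (k + 2)) (x j)) := by
        intro r
        induction r with
        | zero =>
          intro j hj i
          have : j = 0 := by simpa using hj
          subst this; simp
        | succ r ihr =>
          intro j hj i
          have hn : 2 ^ r • (-(j + j)) = 0 := by
            rw [smul_neg, ← two_nsmul, ← mul_smul, ← pow_succ, hj, neg_zero]
          -- basic commutations
          have c1 : ∀ u v : X, Commute (x u) ((tau ^ (k + 1)) (x v)) :=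
            fun u v => ih (k + 1) (by omega) u v
          have c2 : ∀ u v : X, Commute (tau (x u)) ((tau ^ (k + 1)) (x v)) := by
            intro u v
            rw [tau_pow_succ']
            exact commute_aut (ih k (by omega) u v)
          have c3 : ∀ u v : X, Commute (tau (x u)) ((tau ^ (k + 2)) (x v)) := by
            intro u v
            rw [tau_pow_succ']
            exact commute_aut (c1 u v)
          have h1 : Commute (phi i) ((tau ^ (k + 1)) (phi j)) := by
            unfold phi
            rw [map_mul, ← tau_pow_succ]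
            refine Commute.mul_left (Commute.mul_right (c1 _ _) ?_)
              (Commute.mul_right (c2 _ _) (c3 _ _))
            exact ihr _ hn i
          have h2 : Commute (psi i) ((tau ^ (k + 1)) (psi j)) := by
            rw [← sigma_phi hX, ← sigma_phi hX, ← sigma_tau_pow]
            exact commute_aut h1
          unfold psi at h2
          rw [map_mul, ← tau_pow_succ] at h2
          have h3 : Commute (x i * tau (x (-i))) ((tau ^ (k + 2)) (x (-j))) := by
            have h4 : Commute (x i * tau (x (-i))) ((tau ^ (k + 1)) (x j))⁻¹ :=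
              (Commute.mul_left (c1 _ _) (c2 _ _)).inv_right
            have h5 := h4.mul_right h2
            rwa [inv_mul_cancel_left] at h5
          have h6 : Commute (x i) ((tau ^ (k + 2)) (x (-j))) := by
            have h7 := h3.mul_left (c3 (-i) (-j)).inv_left
            rwa [mul_inv_cancel_right] at h7
          rw [x_neg hX, map_inv] at h6
          simpa using h6.inv_right
      intro i j
      obtain ⟨r, hr⟩ := id hX
      exact key r j (hr j) i

/-- The element attached to a list: `x_{m_0} τ(x_{m_1}) τ²(x_{m_2}) ⋯`. -/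
def Phi : List X → PiOne X
  | [] => 1
  | m :: l => x m * tau (Phi l)

include hX in
theorem comm_Phi (l : List X) : ∀ (k : ℕ) (i : X), Commute (x i) ((tau ^ k) (Phi l)) := by
  induction l with
  | nil => intro k i; simp [Phi]
  | cons m l ih =>
    intro k i
    rw [Phi, map_mul, ← tau_pow_succ]
    exact Commute.mul_right (comm_all hX k i m) (ih _ _)

include hX in
theorem comm_tau_Phi (l : List X) (i : X) : Commute (x i) (tau (Phi l)) := by
  simpa using comm_Phi hX l 1 i

include hX in
theorem Phi_mul (l : List X) : ∀ l' : List X, ∃ l'' : List X, Phi l * Phi l' = Phi l'' := by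
  induction l with
  | nil => intro l'; exact ⟨l', by simp [Phi]⟩
  | cons m l ih =>
    intro l'
    cases l' with
    | nil => exact ⟨m :: l, by simp [Phi]⟩
    | cons m' l' =>
      obtain ⟨l'', h⟩ := ih l'
      refine ⟨(m + m') :: l'', ?_⟩
      rw [Phi, Phi, Phi, ← h, map_mul, x_add hX]
      have := (comm_tau_Phi hX l m').eq
      calc x m * tau (Phi l) * (x m' * tau (Phi l')) =
          x m * (tau (Phi l) * x m') * tau (Phi l') := by group
        _ = x m * (x m' * tau (Phi l)) * tau (Phi l') := by rw [this]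
        _ = _ := by group

include hX in
theorem Phi_inv (l : List X) : ∃ l' : List X, (Phi l)⁻¹ = Phi l' := by
  induction l with
  | nil => exact ⟨[], by simp [Phi]⟩
  | cons m l ih =>
    obtain ⟨l', h⟩ := ih
    refine ⟨(-m) :: l', ?_⟩
    rw [Phi, Phi, ← h, mul_inv_rev, x_neg hX, map_inv]
    exact ((comm_tau_Phi hX l m).inv_inv.eq).symm

/-- The subgroup of all `Phi l`. -/
def MP : Subgroup (PiOne X) where
  carrier := {g | ∃ l, g = Phi l}
  mul_mem' := by
    rintro _ _ ⟨l, rfl⟩ ⟨l', rfl⟩
    exact Phi_mul hX l l'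
  one_mem' := ⟨[], rfl⟩
  inv_mem' := by
    rintro _ ⟨l, rfl⟩
    exact Phi_inv hX l

theorem tau_MP {g : PiOne X} (hg : g ∈ MP hX) : tau g ∈ MP hX := by
  obtain ⟨l, rfl⟩ := hg
  exact ⟨0 :: l, by simp [Phi]⟩

theorem x_MP (i : X) : x i ∈ MP hX := ⟨[i], by simp [Phi]⟩

theorem psi_MP (i : X) : psi i ∈ MP hX := ⟨[i, -i], by simp [Phi, psi]⟩

theorem phi_MP (i : X) : phi i ∈ MP hX := ⟨[i, -(i + i)], by simp [Phi, phi]⟩

theorem sigma_x_MP (r : ℕ) : ∀ m : X, 2 ^ r • m = 0 → sigma (x m) ∈ MP hX := by
  induction r with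
  | zero =>
    intro m hm
    have : m = 0 := by simpa using hm
    subst this; simp
  | succ r ih =>
    intro m hm
    have hn : 2 ^ r • (m + m) = 0 := by
      rw [← two_nsmul, ← mul_smul, ← pow_succ, hm]
    have e : x m = phi m * tau (x (m + m)) := by
      rw [phi, x_neg hX, map_inv, inv_mul_cancel_right]
    rw [e, map_mul, sigma_phi hX]
    apply mul_mem (psi_MP hX m)
    have e2 : sigma (tau (x (m + m))) = tau (sigma (x (m + m))) := by
      simpa using sigma_tau_pow 1 (x (m + m))
    rw [e2]
    exact tau_MP hX (ih _ hn)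

theorem sigma_MP {g : PiOne X} (hg : g ∈ MP hX) : sigma g ∈ MP hX := by
  obtain ⟨l, rfl⟩ := hg
  induction l with
  | nil => simp [Phi]
  | cons m l ih =>
    rw [Phi, map_mul]
    obtain ⟨r, hr⟩ := id hX
    apply mul_mem (sigma_x_MP hX r m (hr m))
    have e2 : sigma (tau (Phi l)) = tau (sigma (Phi l)) := by
      simpa using sigma_tau_pow 1 (Phi l)
    rw [e2]
    exact tau_MP hX ih

end Two

end Pool.Agent.DeltaX
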