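import Pool.Agent.MP_4d6048_al.TwoGroup
import Mathlib.RingTheory.AdjoinRoot
import Mathlib.Algebra.TrivSqZeroExt.Basic
import Mathlib.GroupTheory.NoncommCoprod

/-!
The case of a finite abelian 2-group: residual finiteness.
-/

namespace Pool.Agent.DeltaX

universe u v

section TwoRF

variable {X : Type u} [AddCommGroup X] (hX : ∃ r : ℕ, ∀ z : X, 2 ^ r • z = 0)

/-- `τσ`. -/
def rho : MulAut (PiOne X) := tau * sigma

theorem rho_MP {g : PiOne X} (hg : g ∈ MP hX) : rho g ∈ MP hX := by
  unfold rho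
  rw [MulAut.mul_apply]
  exact tau_MP hX (sigma_MP hX hg)

theorem rho_pow_MP {g : PiOne X} (hg : g ∈ MP hX) (n : ℕ) : (rho ^ n) g ∈ MP hX := by
  induction n with
  | zero => simpa using hg
  | succ n ih =>
    rw [pow_succ', MulAut.mul_apply]
    exact rho_MP hX ih

theorem rho_pow_mono {g : PiOne X} {k : ℕ} (hg : (rho ^ k) g ∈ MP hX) (n : ℕ) :
    (rho ^ (n + k)) g ∈ MP hX := by
  rw [pow_add, MulAut.mul_apply]
  exact rho_pow_MP hX hg n

/-- The abelian normal subgroup. -/
def MM : Subgroup (PiOne X) where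
  carrier := {g | ∃ k : ℕ, (rho ^ k) g ∈ MP hX}
  mul_mem' := by
    rintro g g' ⟨k, hk⟩ ⟨k', hk'⟩
    refine ⟨k' + k, ?_⟩
    rw [map_mul]
    apply mul_mem (rho_pow_mono hX hk k')
    rw [add_comm]
    exact rho_pow_mono hX hk' k
  one_mem' := ⟨0, by simp⟩
  inv_mem' := by
    rintro g ⟨k, hk⟩
    refine ⟨k, ?_⟩
    rw [map_inv]
    exact inv_mem hk

theorem MP_le_MM {g : PiOne X} (hg : g ∈ MP hX) : g ∈ MM hX := ⟨0, by simpa using hg⟩

theorem rho_pow_tau (k : ℕ) (g : PiOne X) : (rho ^ k) (tau g) = tau ((rho ^ k) g) := by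
  have h : Commute (tau : MulAut (PiOne X)) rho := by
    unfold rho
    exact (Commute.refl _).mul_right tau_sigma_comm
  exact congrArg (fun f : MulAut (PiOne X) => f g) (h.pow_right k).eq.symm

theorem rho_pow_sigma (k : ℕ) (g : PiOne X) : (rho ^ k) (sigma g) = sigma ((rho ^ k) g) := by
  have h : Commute (sigma : MulAut (PiOne X)) rho := by
    unfold rho
    exact Commute.mul_right tau_sigma_comm.symm (Commute.refl _)
  exact congrArg (fun f : MulAut (PiOne X) => f g) (h.pow_right k).eq.symm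

theorem tau_MM {g : PiOne X} : tau g ∈ MM hX ↔ g ∈ MM hX := by
  constructor
  · rintro ⟨k, hk⟩
    refine ⟨k + 1, ?_⟩
    rw [rho_pow_tau] at hk
    rw [pow_succ', MulAut.mul_apply]
    have e : (rho : MulAut (PiOne X)) = sigma * tau := tau_sigma_comm
    rw [e, MulAut.mul_apply, ← e]
    exact sigma_MP hX hk
  · rintro ⟨k, hk⟩
    refine ⟨k, ?_⟩
    rw [rho_pow_tau]
    exact tau_MP hX hk

theorem sigma_MM {g : PiOne X} : sigma g ∈ MM hX ↔ g ∈ MM hX := by
  constructor
  · rintro ⟨k, hk⟩
    refine ⟨k + 1, ?_⟩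
    rw [rho_pow_sigma] at hk
    rw [pow_succ', MulAut.mul_apply, rho, MulAut.mul_apply]
    exact tau_MP hX hk
  · rintro ⟨k, hk⟩
    refine ⟨k, ?_⟩
    rw [rho_pow_sigma]
    exact sigma_MP hX hk

theorem MM_normal : (MM hX).Normal := by
  rw [← Subgroup.normalizer_eq_top_iff]
  rw [eq_top_iff]
  intro g _
  have hs : (a (0 : X)) ∈ Subgroup.normalizer (MM hX : Set (PiOne X)) := by
    rw [← inv_mem_iff]
    rw [Subgroup.mem_normalizer_iff]
    intro g
    have := sigma_MM hX (g := g)
    rw [sigma_apply] at this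
    simpa using this.symm
  have ht : (b (0 : X)) ∈ Subgroup.normalizer (MM hX : Set (PiOne X)) := by
    rw [Subgroup.mem_normalizer_iff]
    intro g
    have := tau_MM hX (g := g)
    rw [tau_apply] at this
    simpa using this.symm
  have hM : ∀ g ∈ MP hX, g ∈ Subgroup.normalizer (MM hX : Set (PiOne X)) :=
    fun g hg => Subgroup.le_normalizer (MP_le_MM hX hg)
  apply mem_of_gen
  · intro i
    rw [a_eq]
    exact mul_mem hs (hM _ (x_MP hX i))
  · intro j
    rw [b_eq, y_eq_phi hX]
    exact mul_mem (hM _ (phi_MP hX j)) ht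

/-- The exponent of the `a`s. -/
def ea : PiOne X →* Multiplicative ℤ :=
  lift (fun _ => Multiplicative.ofAdd 1) (fun _ => 1) (fun _ _ => mul_comm _ _)

/-- The exponent of the `b`s. -/
def eb : PiOne X →* Multiplicative ℤ :=
  lift (fun _ => 1) (fun _ => Multiplicative.ofAdd 1) (fun _ _ => mul_comm _ _)

theorem mem_MM_of_exponents {g : PiOne X} (h1 : ea g = 1) (h2 : eb g = 1) : g ∈ MM hX := by
  have hN := MM_normal hX
  let π : PiOne X →* PiOne X ⧸ MM hX := QuotientGroup.mk' (MM hX)
  have hc : ∀ m n : Multiplicative ℤ, Commute (zpowersHom _ (π (a 0)) m)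
      (zpowersHom _ (π (b 0)) n) := by
    intro m n
    rw [zpowersHom_apply, zpowersHom_apply]
    apply Commute.zpow_zpow
    unfold Commute SemiconjBy
    rw [← map_mul, ← map_mul, comm_ab]
  let u : PiOne X →* PiOne X ⧸ MM hX :=
    (MonoidHom.noncommCoprod (zpowersHom _ (π (a 0))) (zpowersHom _ (π (b 0))) hc).comp
      (ea.prod eb)
  have hu : π = u := by
    apply hom_ext
    · intro i
      have e1 : π (x i) = 1 :=
        (QuotientGroup.eq_one_iff _).mpr (MP_le_MM hX (x_MP hX i))
      have e2 : π (a i) = π (a 0) := by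
        rw [a_eq i, map_mul, e1, mul_one]
      rw [e2]
      simp [u, ea, eb]
    · intro j
      have e1 : π (y j) = 1 := by
        rw [y_eq_phi hX]
        exact (QuotientGroup.eq_one_iff _).mpr (MP_le_MM hX (phi_MP hX j))
      have e2 : π (b j) = π (b 0) := by
        rw [b_eq j, map_mul, e1, one_mul]
      rw [e2]
      simp [u, ea, eb]
  have hg : π g = 1 := by
    rw [hu]
    simp [u, h1, h2]
  exact (QuotientGroup.eq_one_iff _).mp hg

include hX in
/-- Conjugacy to an element `Phi l`. -/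
theorem exists_Phi {g : PiOne X} (h1 : ea g = 1) (h2 : eb g = 1) :
    ∃ (c : PiOne X) (l : List X), g = c * Phi l * c⁻¹ := by
  obtain ⟨k, l, hl⟩ := mem_MM_of_exponents hX h1 h2
  have hk : (rho ^ k : MulAut (PiOne X)) = MulAut.conj ((b 0 * (a 0)⁻¹) ^ k) := by
    rw [map_pow, map_mul]
    rfl
  rw [hk, MulAut.conj_apply] at hl
  refine ⟨((b 0 * (a 0)⁻¹) ^ k)⁻¹, l, ?_⟩
  rw [← hl]
  group

section Affine

variable {R : Type*} [CommRing R] (T : Rˣ) (U : Rˣ) (V : Rˣ) (hU : (U : R) = 1 - T)
  (hV : (V : R) = 1 - 2 * T) (χ : X →+ R)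

/-- An affine permutation. -/
def aff (u : Rˣ) (c : R) : Equiv.Perm R where
  toFun z := u * z + c
  invFun z := (↑(u⁻¹) : R) * (z - c)
  left_inv z := by simp
  right_inv z := by simp

theorem aff_apply (u : Rˣ) (c z : R) : aff u c z = u * z + c := rfl

/-- The affine representation. -/
def affRep : PiOne X →* Equiv.Perm R :=
  lift (fun i => aff (V * U⁻¹) ((↑(V * U⁻¹) : R) * χ i)) (fun j => aff T (V * χ j)) (by
    intro i j
    apply Equiv.ext
    intro z
    simp only [Equiv.Perm.mul_apply, aff_apply, map_add, map_sub]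
    have hU' : (↑U : R) * (↑(U⁻¹) : R) = 1 := by simp
    have key : (↑(V * U⁻¹) : R) * (↑V * χ j + χ i) =
        (↑T : R) * ((↑(V * U⁻¹) : R) * (χ i - χ j)) + ↑V * (χ i + χ j) := by
      have : (1 : R) = (↑U : R) * (↑(U⁻¹) : R) := hU'.symm
      have e : (↑V : R) * (χ i + χ j) = (↑(V * U⁻¹) : R) * (↑U * (χ i + χ j)) := by
        rw [Units.val_mul]
        calc (↑V : R) * (χ i + χ j) = ↑V * ((↑U * ↑U⁻¹) * (χ i + χ j)) := by
              rw [hU', one_mul]
          _ = _ := by ring
      rw [e, hU, hV]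
      ring
    linear_combination key)

theorem affRep_x (i : X) (z : R) : affRep T U V hU hV χ (x i) z = z + χ i := by
  unfold x
  rw [map_mul, map_inv, Equiv.Perm.mul_apply, Equiv.Perm.inv_eq_iff_eq]
  simp only [affRep, lift_a, aff_apply, map_zero]
  ring

theorem affRep_tau (g : PiOne X) (c : R) (hg : ∀ z, affRep T U V hU hV χ g z = z + c) (z : R) :
    affRep T U V hU hV χ (tau g) z = z + T * c := by
  have hb : ∀ z, affRep T U V hU hV χ (b 0) z = T * z := by
    intro z
    simp [affRep, aff_apply]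
  obtain ⟨w, rfl⟩ : ∃ w, z = T * w := ⟨(↑(T⁻¹) : R) * z, by simp⟩
  have hb' : (affRep T U V hU hV χ (b 0))⁻¹ (T * w) = w := by
    rw [Equiv.Perm.inv_eq_iff_eq, hb]
  have e : affRep T U V hU hV χ (tau g) = affRep T U V hU hV χ (b 0) * affRep T U V hU hV χ g *
      (affRep T U V hU hV χ (b 0))⁻¹ := by
    rw [tau_apply, map_mul, map_mul, map_inv]
  rw [e, Equiv.Perm.mul_apply, Equiv.Perm.mul_apply, hb', hg, hb]
  ring

/-- The sum `Σ χ(m_i) T^i`. -/
def SS (T : R) (χ : X →+ R) : List X → R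
  | [] => 0
  | m :: l => χ m + T * SS T χ l

theorem affRep_Phi (l : List X) (z : R) :
    affRep T U V hU hV χ (Phi l) z = z + SS (T : R) χ l := by
  induction l generalizing z with
  | nil => simp [Phi, SS]
  | cons m l ih =>
    rw [Phi, map_mul, Equiv.Perm.mul_apply, affRep_tau T U V hU hV χ _ _ (fun z => ih z),
      affRep_x, SS]
    ring

end Affine

/-- The polynomial attached to a list. -/
noncomputable def PP {R : Type*} [CommRing R] (χ : X →+ R) : List X → Polynomial R
  | [] => 0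
  | m :: l => Polynomial.C (χ m) + Polynomial.X * PP χ l

theorem PP_natDegree {R : Type*} [CommRing R] (χ : X →+ R) (l : List X) :
    (PP χ l).natDegree ≤ l.length := by
  induction l with
  | nil => simp [PP]
  | cons m l ih =>
    rw [PP, List.length_cons]
    refine (Polynomial.natDegree_add_le _ _).trans (max_le ?_ ?_)
    · simp
    · refine Polynomial.natDegree_mul_le.trans ?_
      have := Polynomial.natDegree_X_le (R := R)
      omega

theorem PP_eq_zero {R : Type*} [CommRing R] (χ : X →+ R) (hχ : Function.Injective χ)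
    (l : List X) (h : PP χ l = 0) : ∀ m ∈ l, m = 0 := by
  induction l with
  | nil => simp
  | cons m l ih =>
    rw [PP] at h
    have h0 : χ m = 0 := by
      have := congrArg (fun q => Polynomial.coeff q 0) h
      simpa using this
    have hm : m = 0 := hχ (by rw [h0, map_zero])
    rw [h0, map_zero, zero_add] at h
    have h2 : PP χ l = 0 := by
      ext n
      have := congrArg (fun q => Polynomial.coeff q (n + 1)) h
      simpa using this
    intro m' hm'
    rcases List.mem_cons.mp hm' with rfl | hm'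
    · exact hm
    · exact ih h2 m' hm'

theorem SS_AdjoinRoot {R : Type*} [CommRing R] (χ : X →+ R) (f : Polynomial R) (l : List X) :
    SS (AdjoinRoot.root f) ((AdjoinRoot.of f : R →+ AdjoinRoot f).comp χ) l =
      AdjoinRoot.mk f (PP χ l) := by
  induction l with
  | nil => simp [SS, PP]
  | cons m l ih => simp [SS, PP, ih]

theorem exists_finite_ring_aux {R : Type v} [CommRing R] [Nontrivial R] [Finite R]
    (h2 : IsNilpotent (2 : R)) (χ : X →+ R) (hχ : Function.Injective χ) (l : List X)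
    (hl : ∃ m ∈ l, m ≠ 0) :
    ∃ (S : Type v) (_ : CommRing S) (_ : Finite S) (T U V : Sˣ) (_ : (U : S) = 1 - T)
      (_ : (V : S) = 1 - 2 * T) (ψ : X →+ S), SS (T : S) ψ l ≠ 0 := by
  let N := l.length + 1
  let f : Polynomial R := Polynomial.X ^ (N + 1) + (1 - Polynomial.X)
  have hdeg : (1 - Polynomial.X : Polynomial R).degree ≤ N := by
    refine (Polynomial.degree_sub_le _ _).trans (max_le ?_ ?_)
    · refine Polynomial.degree_one_le.trans ?_
      exact_mod_cast Nat.zero_le _
    · refine Polynomial.degree_X_le.trans ?_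
      exact_mod_cast Nat.le_add_left 1 _
  have hf : f.Monic := Polynomial.monic_X_pow_add (lt_of_le_of_lt hdeg (by
    exact_mod_cast Nat.lt_succ_self _))
  have hfd : f.natDegree = N + 1 := by
    apply Polynomial.natDegree_eq_of_degree_eq_some
    have h3 : (1 - Polynomial.X : Polynomial R).degree <
        (Polynomial.X ^ (N + 1) : Polynomial R).degree := by
      rw [Polynomial.degree_X_pow]
      exact lt_of_le_of_lt hdeg (by exact_mod_cast Nat.lt_succ_self _)
    rw [Polynomial.degree_add_eq_left_of_degree_lt h3, Polynomial.degree_X_pow]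
  have : Module.Finite R (AdjoinRoot f) := hf.finite_adjoinRoot
  have hfin : Finite (AdjoinRoot f) := Module.finite_of_finite R
  have hroot : (AdjoinRoot.root f) ^ (N + 1) + (1 - AdjoinRoot.root f) = 0 := by
    have := AdjoinRoot.eval₂_root f
    simpa [f] using this
  have hT : AdjoinRoot.root f * (1 - (AdjoinRoot.root f) ^ N) = 1 := by
    rw [mul_sub, mul_one, ← pow_succ']
    linear_combination -hroot
  have hU : (1 - AdjoinRoot.root f) *
      ((∑ i ∈ Finset.range N, (AdjoinRoot.root f) ^ i) * AdjoinRoot.root f) = 1 := by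
    rw [← mul_assoc, mul_neg_geom_sum, mul_comm]
    exact hT
  have hV : IsUnit (1 - 2 * AdjoinRoot.root f) := by
    apply IsNilpotent.isUnit_one_sub
    obtain ⟨n, hn⟩ := h2
    refine ⟨n, ?_⟩
    rw [mul_pow]
    have : (2 : AdjoinRoot f) ^ n = 0 := by
      have := congrArg (AdjoinRoot.of f) hn
      rwa [map_pow, map_ofNat, map_zero] at this
    rw [this, zero_mul]
  refine ⟨AdjoinRoot f, inferInstance, hfin, Units.mkOfMulEqOne _ _ hT,
    Units.mkOfMulEqOne _ _ hU, hV.unit, ?_, ?_, (AdjoinRoot.of f : R →+ AdjoinRoot f).comp χ, ?_⟩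
  · rfl
  · rfl
  · have e : ((Units.mkOfMulEqOne _ _ hT : (AdjoinRoot f)ˣ) : AdjoinRoot f) =
      AdjoinRoot.root f := rfl
    rw [e, SS_AdjoinRoot]
    intro h0
    rw [AdjoinRoot.mk_eq_zero] at h0
    have hne : PP χ l ≠ 0 := by
      intro h1
      obtain ⟨m, hm, hm0⟩ := hl
      exact hm0 (PP_eq_zero χ hχ l h1 m hm)
    refine hf.not_dvd_of_natDegree_lt hne ?_ h0
    have := PP_natDegree χ l
    rw [hfd]
    omega

include hX in
theorem exists_finite_ring [Finite X] (l : List X) (hl : ∃ m ∈ l, m ≠ 0) :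
    ∃ (S : Type u) (_ : CommRing S) (_ : Finite S) (T U V : Sˣ) (_ : (U : S) = 1 - T)
      (_ : (V : S) = 1 - 2 * T) (ψ : X →+ S), SS (T : S) ψ l ≠ 0 := by
  obtain ⟨r, hr⟩ := hX
  have hr' : ∀ z : X, (2 ^ r) • z = 0 := hr
  let _ : Module (ZMod (2 ^ r)) X := AddCommGroup.zmodModule hr'
  let _ : Module (ZMod (2 ^ r))ᵐᵒᵖ X := Module.compHom X
    ((RingHom.id (ZMod (2 ^ r))).fromOpposite (fun _ _ => mul_comm _ _))
  have : IsCentralScalar (ZMod (2 ^ r)) X := ⟨fun _ _ => rfl⟩
  have : Finite (TrivSqZeroExt (ZMod (2 ^ r)) X) :=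
    inferInstanceAs (Finite (ZMod (2 ^ r) × X))
  have : Nontrivial (TrivSqZeroExt (ZMod (2 ^ r)) X) := by
    obtain ⟨m, -, hm⟩ := hl
    exact ⟨TrivSqZeroExt.inr m, 0, fun h => hm (by simpa using congrArg TrivSqZeroExt.snd h)⟩
  have h2 : IsNilpotent (2 : TrivSqZeroExt (ZMod (2 ^ r)) X) := by
    refine ⟨r, ?_⟩
    have h3 : ((2 : ZMod (2 ^ r)) ^ r) = 0 := by
      have := ZMod.natCast_self (2 ^ r)
      exact_mod_cast this
    have := congrArg (TrivSqZeroExt.inlHom (ZMod (2 ^ r)) X) h3
    rwa [map_pow, map_ofNat, map_zero] at this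
  exact exists_finite_ring_aux (R := TrivSqZeroExt (ZMod (2 ^ r)) X) h2
    (TrivSqZeroExt.inrHom (ZMod (2 ^ r)) X).toAddMonoidHom TrivSqZeroExt.inr_injective l hl

theorem Phi_eq_one (l : List X) (h : ∀ m ∈ l, m = 0) : Phi l = 1 := by
  induction l with
  | nil => rfl
  | cons m l ih =>
    have e1 : m = 0 := h m (by simp)
    have e2 : Phi l = 1 := ih (fun m' hm' => h m' (by simp [hm']))
    rw [Phi, e1, e2, x_zero, map_one, one_mul]

include hX in
/-- Residual finiteness for 2-groups. -/
theorem residuallyFinite_two [Finite X] : Group.ResiduallyFinite (PiOne X) := by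
  rw [Group.residuallyFinite_iff_exists_finiteIndex]
  intro g hg
  have hZ : ∀ (f : PiOne X →* Multiplicative ℤ), f g ≠ 1 →
      ∃ H : Subgroup (PiOne X), H.FiniteIndex ∧ g ∉ H := by
    intro f hf
    set p : ℤ := Multiplicative.toAdd (f g) with hp
    have hp0 : p ≠ 0 := fun h => hf (by
      rw [← ofAdd_toAdd (f g), ← hp, h, ofAdd_zero])
    let N : ℕ := p.natAbs + 1
    let F : PiOne X →* Multiplicative (ZMod N) :=
      (AddMonoidHom.toMultiplicative (Int.castAddHom (ZMod N))).comp f
    refine ⟨F.ker, Subgroup.finiteIndex_ker F, ?_⟩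
    rw [MonoidHom.mem_ker]
    intro h
    have h1 : ((p : ℤ) : ZMod N) = 0 := by
      have := congrArg Multiplicative.toAdd h
      simpa [F] using this
    rw [ZMod.intCast_zmod_eq_zero_iff_dvd] at h1
    have h2 := Int.le_of_dvd (by positivity) ((dvd_abs _ _).mpr h1)
    have h3 : |p| = (p.natAbs : ℤ) := Int.abs_eq_natAbs p
    omega
  by_cases h1 : ea g = 1
  · by_cases h2 : eb g = 1
    · obtain ⟨c, l, rfl⟩ := exists_Phi hX h1 h2
      have hl : ∃ m ∈ l, m ≠ 0 := by
        by_contra hcon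
        push Not at hcon
        apply hg
        rw [Phi_eq_one l hcon]
        group
      obtain ⟨S, _, _, T, U, V, hU, hV, ψ, hne⟩ := exists_finite_ring hX l hl
      let F := affRep T U V hU hV ψ
      refine ⟨F.ker, Subgroup.finiteIndex_ker F, ?_⟩
      rw [MonoidHom.mem_ker, map_mul, map_mul, map_inv]
      intro h
      have h3 : F (Phi l) = 1 := by
        have := conj_eq_one_iff.mp h
        exact this
      have h4 := affRep_Phi T U V hU hV ψ l 0
      change F (Phi l) 0 = _ at h4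
      rw [h3] at h4
      apply hne
      simpa using h4.symm
    · exact hZ eb h2
  · exact hZ ea h1

end TwoRF

end Pool.Agent.DeltaX
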